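import Pool.Agent.Run7.h131.AD.Iface

/-! Piece PMW of project AD (helper131, MP_88ab83_nt). -/

set_option autoImplicit false
set_option linter.unusedVariables false
set_option linter.unusedSectionVars false

namespace Run7.h721.AD

open Run7.h131.AD

/-! ### the derivation in `y` -/

/-- the derivative in the inner variable -/
noncomputable def dY (E : PowerSeries PS) : PowerSeries PS :=
  PowerSeries.mk fun k => D (PowerSeries.coeff k E)

theorem coeff_dY (E : PowerSeries PS) (k : ℕ) :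
    PowerSeries.coeff k (dY E) = D (PowerSeries.coeff k E) := by
  rw [dY, PowerSeries.coeff_mk]

theorem D_add (g h : PS) : D (g + h) = D g + D h := map_add _ g h

theorem D_mul (g h : PS) : D (g * h) = g * D h + h * D g := by
  rw [D, Derivation.leibniz, smul_eq_mul, smul_eq_mul]
  rfl

theorem D_zero : D 0 = 0 := map_zero _

theorem D_C (x : ℚ) : D (PowerSeries.C x) = 0 := PowerSeries.derivative_C

theorem D_C_mul (x : ℚ) (g : PS) : D (PowerSeries.C x * g) = PowerSeries.C x * D g := by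
  rw [D_mul, D_C, mul_zero, add_zero]

theorem D_sum {ι : Type} (t : Finset ι) (F : ι → PS) : D (∑ i ∈ t, F i) = ∑ i ∈ t, D (F i) :=
  map_sum _ F t

theorem dY_add (a b : PowerSeries PS) : dY (a + b) = dY a + dY b := by
  ext1 k
  rw [coeff_dY, map_add, map_add, D_add, coeff_dY, coeff_dY]

theorem dY_mul (a b : PowerSeries PS) : dY (a * b) = a * dY b + b * dY a := by
  ext1 k
  rw [coeff_dY, map_add, mul_comm b (dY a), PowerSeries.coeff_mul, PowerSeries.coeff_mul,
    PowerSeries.coeff_mul, D_sum, ← Finset.sum_add_distrib]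
  refine Finset.sum_congr rfl fun x _ => ?_
  rw [D_mul, coeff_dY, coeff_dY]
  ring

theorem dY_zero : dY 0 = 0 := by
  ext1 k
  rw [coeff_dY, map_zero, D_zero]

theorem dYi_zero (n : ℕ) : dY^[n] 0 = 0 := by
  induction n with
  | zero => rfl
  | succ n ih => rw [Function.iterate_succ_apply, dY_zero, ih]

theorem dYi_add (n : ℕ) (a b : PowerSeries PS) : dY^[n] (a + b) = dY^[n] a + dY^[n] b := by
  induction n generalizing a b with
  | zero => rfl
  | succ n ih =>
    rw [Function.iterate_succ_apply, dY_add, ih, ← Function.iterate_succ_apply,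
      ← Function.iterate_succ_apply]

theorem dY_inY (g : PS) : dY (inY g) = inY (D g) := by
  ext1 k
  rw [coeff_dY, inY, inY, PowerSeries.coeff_C, PowerSeries.coeff_C]
  split_ifs with h
  · rfl
  · exact D_zero

theorem dYi_inY (n : ℕ) (g : PS) : dY^[n] (inY g) = inY (D^[n] g) := by
  induction n generalizing g with
  | zero => rfl
  | succ n ih => rw [Function.iterate_succ_apply, dY_inY, ih, ← Function.iterate_succ_apply]

theorem dY_inX (g : PS) : dY (inX g) = 0 := by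
  ext1 k
  rw [coeff_dY, inX, PowerSeries.coeff_mk, map_zero, D_C]

theorem dY_tay (g : PS) : dY (tay g) = tay (D g) := by
  ext1 k
  rw [coeff_dY, tay, tay, PowerSeries.coeff_mk, PowerSeries.coeff_mk, D_C_mul,
    ← Function.iterate_succ_apply D k g, ← Function.iterate_succ_apply' D k g]

theorem dYi_tay (n : ℕ) (g : PS) : dY^[n] (tay g) = tay (D^[n] g) := by
  induction n generalizing g with
  | zero => rfl
  | succ n ih => rw [Function.iterate_succ_apply, dY_tay, ih, ← Function.iterate_succ_apply]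

/-! ### the evaluation at `y = 0` -/

/-- `y = 0` -/
noncomputable def ee : PowerSeries PS →+* PS :=
  PowerSeries.map (PowerSeries.constantCoeff (R := ℚ))

theorem ee_tay (g : PS) : ee (tay g) = g := by
  have hD : ∀ (k : ℕ) (g : PS), ev (D^[k] g) = (k.factorial : ℚ) * PowerSeries.coeff k g := by
    intro k
    induction k with
    | zero =>
      intro g
      rw [Function.iterate_zero_apply, ev, Nat.factorial_zero, Nat.cast_one, one_mul,
        PowerSeries.coeff_zero_eq_constantCoeff]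
    | succ k ih =>
      intro g
      rw [Function.iterate_succ_apply, ih, D, PowerSeries.coeff_derivative, Nat.factorial_succ]
      push_cast
      ring
  ext1 k
  rw [ee, PowerSeries.coeff_map, tay, PowerSeries.coeff_mk, map_mul, PowerSeries.constantCoeff_C]
  change (k.factorial : ℚ)⁻¹ * ev (D^[k] g) = _
  rw [hD, ← mul_assoc, inv_mul_cancel₀ (Nat.cast_ne_zero.2 (Nat.factorial_ne_zero k)), one_mul]

theorem ee_inY (g : PS) : ee (inY g) = PowerSeries.C (ev g) := by
  rw [ee, inY, PowerSeries.map_C, ev]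

theorem ee_inX (g : PS) : ee (inX g) = g := by
  ext1 k
  rw [ee, PowerSeries.coeff_map, inX, PowerSeries.coeff_mk, PowerSeries.constantCoeff_C]

theorem ee_phi {s : ℕ} (w : Fin s → PS) (H : MvPolynomial (Fin s ⊕ Fin s) ℚ) :
    ee (MvPolynomial.aeval (pt2 w) H) = MvPolynomial.aeval (pt1 w) H := by
  have h : ee.comp (MvPolynomial.aeval (R := ℚ) (pt2 w)).toRingHom =
      (MvPolynomial.aeval (R := ℚ) (pt1 w)).toRingHom := by
    refine MvPolynomial.ringHom_ext (fun r => ?_) fun j => ?_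
    · change ee (MvPolynomial.aeval (pt2 w) (MvPolynomial.C r)) =
        MvPolynomial.aeval (pt1 w) (MvPolynomial.C r)
      rw [MvPolynomial.aeval_C, MvPolynomial.aeval_C]
      exact RingHom.congr_fun
        (RingHom.ext_rat (ee.comp (algebraMap ℚ (PowerSeries PS))) (algebraMap ℚ PS)) r
    · change ee (MvPolynomial.aeval (pt2 w) (MvPolynomial.X j)) =
        MvPolynomial.aeval (pt1 w) (MvPolynomial.X j)
      rw [MvPolynomial.aeval_X, MvPolynomial.aeval_X]
      rcases j with j | j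
      · exact ee_inX (w j)
      · change ee (inY (w j)) = PowerSeries.C (c0 w j)
        rw [ee_inY, c0]
  exact RingHom.congr_fun h H

/-! ### the ring `R2` -/

section R2
variable {s : ℕ}

/-- numbers integral at `p`, as a subring, with the consequences used -/
structure ZF (p : ℕ) : Prop where
  prime : p.Prime
  zsub : ∃ S : Subring ℚ, (S : Set ℚ) = {x | ZI p x}
  psub : ∀ σ : Type, ∃ S : Subring (MvPolynomial σ ℚ), (S : Set (MvPolynomial σ ℚ)) = {P | PI p P} ∧
    (∀ x : ℚ, ZI p x → MvPolynomial.C x ∈ S) ∧ ∀ i, MvPolynomial.X i ∈ S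
  pder : ∀ (σ : Type) (P : MvPolynomial σ ℚ) (i : σ), PI p P → PI p (MvPolynomial.pderiv i P)
  bind : ∀ (σ τ : Type) (P : MvPolynomial σ ℚ) (e : σ → MvPolynomial τ ℚ), PI p P →
    (∀ i, PI p (e i)) → PI p (MvPolynomial.bind₁ e P)

theorem zf {p : ℕ} (hp : p.Prime) (h : S_ZZZ) : ZF p := by
  obtain ⟨h1, _, _, _, h5, h6, h7, _⟩ := h
  exact ⟨hp, (h1 p hp).1, fun σ => h5 p σ hp, fun σ P i => h6 p σ P i hp,
    fun σ τ P e => h7 p σ τ P e hp⟩

variable {p : ℕ}

theorem ZI_one (h : ZF p) : ZI p 1 := by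
  obtain ⟨S, hS⟩ := h.zsub
  have : (1 : ℚ) ∈ (S : Set ℚ) := S.one_mem
  rwa [hS] at this

theorem ZI_mul (h : ZF p) {x y : ℚ} (hx : ZI p x) (hy : ZI p y) : ZI p (x * y) := by
  obtain ⟨S, hS⟩ := h.zsub
  have h1 : x ∈ (S : Set ℚ) := by rw [hS]; exact hx
  have h2 : y ∈ (S : Set ℚ) := by rw [hS]; exact hy
  have : x * y ∈ (S : Set ℚ) := S.mul_mem h1 h2
  rwa [hS] at this

theorem ZU_one (h : ZF p) : ZU p 1 := ⟨one_ne_zero, ZI_one h, by rw [inv_one]; exact ZI_one h⟩

theorem ZU_mul (h : ZF p) {x y : ℚ} (hx : ZU p x) (hy : ZU p y) : ZU p (x * y) :=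
  ⟨mul_ne_zero hx.1 hy.1, ZI_mul h hx.2.1 hy.2.1, by rw [mul_inv]; exact ZI_mul h hx.2.2 hy.2.2⟩

/-- membership -/
def InR (p : ℕ) (w : Fin s → PS) (E : PowerSeries PS) : Prop :=
  ∃ P Q : MvPolynomial (Fin s ⊕ Fin s) ℚ, PI p P ∧ PI p Q ∧ ZU p (MvPolynomial.eval (pt0 w) Q) ∧
    MvPolynomial.aeval (pt2 w) Q * E = MvPolynomial.aeval (pt2 w) P

/-- the ring `R2` -/
noncomputable def R2 (h : ZF p) (w : Fin s → PS) : Subring (PowerSeries PS) where
  carrier := {E | InR p w E}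
  one_mem' := by
    obtain ⟨S, hS, _, _⟩ := h.psub (Fin s ⊕ Fin s)
    have h1 : PI p (1 : MvPolynomial (Fin s ⊕ Fin s) ℚ) := by
      have : (1 : MvPolynomial (Fin s ⊕ Fin s) ℚ) ∈ (S : Set _) := S.one_mem
      rwa [hS] at this
    exact ⟨1, 1, h1, h1, by rw [map_one]; exact ZU_one h, by rw [mul_one]⟩
  zero_mem' := by
    obtain ⟨S, hS, _, _⟩ := h.psub (Fin s ⊕ Fin s)
    have h1 : PI p (1 : MvPolynomial (Fin s ⊕ Fin s) ℚ) := by
      have : (1 : MvPolynomial (Fin s ⊕ Fin s) ℚ) ∈ (S : Set _) := S.one_mem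
      rwa [hS] at this
    have h0 : PI p (0 : MvPolynomial (Fin s ⊕ Fin s) ℚ) := by
      have : (0 : MvPolynomial (Fin s ⊕ Fin s) ℚ) ∈ (S : Set _) := S.zero_mem
      rwa [hS] at this
    exact ⟨0, 1, h0, h1, by rw [map_one]; exact ZU_one h, by rw [mul_zero, map_zero]⟩
  add_mem' := by
    rintro E F ⟨P, Q, hP, hQ, hu, he⟩ ⟨P', Q', hP', hQ', hu', he'⟩
    obtain ⟨S, hS, _, _⟩ := h.psub (Fin s ⊕ Fin s)
    have m : ∀ {X : MvPolynomial (Fin s ⊕ Fin s) ℚ}, PI p X → X ∈ S := fun {X} hX => by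
      have : X ∈ (S : Set _) := by rw [hS]; exact hX
      exact this
    have m' : ∀ {X : MvPolynomial (Fin s ⊕ Fin s) ℚ}, X ∈ S → PI p X := fun {X} hX => by
      have : X ∈ (S : Set _) := hX
      rwa [hS] at this
    refine ⟨Q' * P + Q * P', Q * Q', m' (S.add_mem (S.mul_mem (m hQ') (m hP))
      (S.mul_mem (m hQ) (m hP'))), m' (S.mul_mem (m hQ) (m hQ')), ?_, ?_⟩
    · rw [map_mul]
      exact ZU_mul h hu hu'
    · rw [map_mul, map_add, map_mul, map_mul, ← he, ← he']
      ring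
  mul_mem' := by
    rintro E F ⟨P, Q, hP, hQ, hu, he⟩ ⟨P', Q', hP', hQ', hu', he'⟩
    obtain ⟨S, hS, _, _⟩ := h.psub (Fin s ⊕ Fin s)
    have m : ∀ {X : MvPolynomial (Fin s ⊕ Fin s) ℚ}, PI p X → X ∈ S := fun {X} hX => by
      have : X ∈ (S : Set _) := by rw [hS]; exact hX
      exact this
    have m' : ∀ {X : MvPolynomial (Fin s ⊕ Fin s) ℚ}, X ∈ S → PI p X := fun {X} hX => by
      have : X ∈ (S : Set _) := hX
      rwa [hS] at this
    refine ⟨P * P', Q * Q', m' (S.mul_mem (m hP) (m hP')), m' (S.mul_mem (m hQ) (m hQ')), ?_, ?_⟩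
    · rw [map_mul]
      exact ZU_mul h hu hu'
    · rw [map_mul, map_mul, ← he, ← he']
      ring
  neg_mem' := by
    rintro E ⟨P, Q, hP, hQ, hu, he⟩
    obtain ⟨S, hS, _, _⟩ := h.psub (Fin s ⊕ Fin s)
    have m : P ∈ S := by
      have : P ∈ (S : Set _) := by rw [hS]; exact hP
      exact this
    have m2 : PI p (-P) := by
      have : -P ∈ (S : Set _) := S.neg_mem m
      rwa [hS] at this
    exact ⟨-P, Q, m2, hQ, hu, by rw [mul_neg, he, map_neg]⟩

theorem mem_R2 (h : ZF p) (w : Fin s → PS) (E : PowerSeries PS) : E ∈ R2 h w ↔ InR p w E :=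
  Iff.rfl

theorem PI_one (h : ZF p) (σ : Type) : PI p (1 : MvPolynomial σ ℚ) := by
  obtain ⟨S, hS, _, _⟩ := h.psub σ
  have : (1 : MvPolynomial σ ℚ) ∈ (S : Set _) := S.one_mem
  rwa [hS] at this

theorem PI_X (h : ZF p) {σ : Type} (i : σ) : PI p (MvPolynomial.X i : MvPolynomial σ ℚ) := by
  obtain ⟨S, hS, _, h3⟩ := h.psub σ
  have : (MvPolynomial.X i : MvPolynomial σ ℚ) ∈ (S : Set _) := h3 i
  rwa [hS] at this

theorem PI_C (h : ZF p) {σ : Type} (x : ℚ) (hx : ZI p x) :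
    PI p (MvPolynomial.C x : MvPolynomial σ ℚ) := by
  obtain ⟨S, hS, h2, _⟩ := h.psub σ
  have : (MvPolynomial.C x : MvPolynomial σ ℚ) ∈ (S : Set _) := h2 x hx
  rwa [hS] at this

theorem PI_mul (h : ZF p) {σ : Type} {P Q : MvPolynomial σ ℚ} (hP : PI p P) (hQ : PI p Q) :
    PI p (P * Q) := by
  obtain ⟨S, hS, _, _⟩ := h.psub σ
  have h1 : P ∈ (S : Set _) := by rw [hS]; exact hP
  have h2 : Q ∈ (S : Set _) := by rw [hS]; exact hQ
  have : P * Q ∈ (S : Set _) := S.mul_mem h1 h2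
  rwa [hS] at this

theorem phi_mem (h : ZF p) (w : Fin s → PS) {H : MvPolynomial (Fin s ⊕ Fin s) ℚ} (hH : PI p H) :
    MvPolynomial.aeval (pt2 w) H ∈ R2 h w :=
  ⟨H, 1, hH, PI_one h _, by rw [map_one]; exact ZU_one h, by rw [map_one, one_mul]⟩

theorem inY_phi (w : Fin s → PS) (H : MvPolynomial (Fin s) ℚ) :
    inY (MvPolynomial.aeval w H) =
      MvPolynomial.aeval (pt2 w) (MvPolynomial.rename (Sum.inr : Fin s → Fin s ⊕ Fin s) H) := by
  rw [MvPolynomial.aeval_rename]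
  have h : (PowerSeries.C : PS →+* PowerSeries PS).comp (MvPolynomial.aeval (R := ℚ) w).toRingHom =
      (MvPolynomial.aeval (R := ℚ) (pt2 w ∘ (Sum.inr : Fin s → Fin s ⊕ Fin s))).toRingHom := by
    refine MvPolynomial.ringHom_ext (fun r => ?_) fun j => ?_
    · exact RingHom.congr_fun (RingHom.ext_rat
        (((PowerSeries.C : PS →+* PowerSeries PS).comp
          (MvPolynomial.aeval (R := ℚ) w).toRingHom).comp MvPolynomial.C)
        ((MvPolynomial.aeval (R := ℚ)
          (pt2 w ∘ (Sum.inr : Fin s → Fin s ⊕ Fin s))).toRingHom.comp MvPolynomial.C)) r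
    · change PowerSeries.C (MvPolynomial.aeval w (MvPolynomial.X j)) =
        MvPolynomial.aeval (pt2 w ∘ (Sum.inr : Fin s → Fin s ⊕ Fin s)) (MvPolynomial.X j)
      rw [MvPolynomial.aeval_X, MvPolynomial.aeval_X]
      rfl
  exact RingHom.congr_fun h H

theorem inY_mem (h : ZF p) (w : Fin s → PS) {g : PS} (hg : g ∈ OP p w) : inY g ∈ R2 h w := by
  obtain ⟨P, Q, hP, hQ, hu, he⟩ := hg
  have hr : ∀ {H : MvPolynomial (Fin s) ℚ}, PI p H →
      PI p (MvPolynomial.rename (Sum.inr : Fin s → Fin s ⊕ Fin s) H) := fun {H} hH => by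
    have e : MvPolynomial.rename (Sum.inr : Fin s → Fin s ⊕ Fin s) H =
        MvPolynomial.bind₁ (fun i => (MvPolynomial.X (Sum.inr i) :
          MvPolynomial (Fin s ⊕ Fin s) ℚ)) H := by
      have : (MvPolynomial.rename (R := ℚ) (Sum.inr : Fin s → Fin s ⊕ Fin s)) =
          MvPolynomial.bind₁ (fun i => (MvPolynomial.X (Sum.inr i) :
            MvPolynomial (Fin s ⊕ Fin s) ℚ)) :=
        MvPolynomial.algHom_ext fun i => by
          rw [MvPolynomial.rename_X, MvPolynomial.bind₁_X_right]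
      rw [this]
    rw [e]
    exact h.bind (Fin s) (Fin s ⊕ Fin s) H (fun i => MvPolynomial.X (Sum.inr i)) hH
      fun i => PI_X h _
  refine ⟨MvPolynomial.rename (Sum.inr : Fin s → Fin s ⊕ Fin s) P,
    MvPolynomial.rename (Sum.inr : Fin s → Fin s ⊕ Fin s) Q, hr hP, hr hQ, ?_, ?_⟩
  · rw [MvPolynomial.eval_rename]
    exact hu
  · rw [← inY_phi, ← inY_phi, ← he, inY, inY, inY, map_mul]

/-! ### the chain rule -/

/-- `∑_j (∂H/∂Y_j) v_j` -/
noncomputable def LL (w : Fin s → PS) (v : Fin s → PowerSeries PS)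
    (H : MvPolynomial (Fin s ⊕ Fin s) ℚ) : PowerSeries PS :=
  ∑ j, MvPolynomial.aeval (pt2 w) (MvPolynomial.pderiv (Sum.inr j) H) * v j

theorem LL_add (w : Fin s → PS) (v : Fin s → PowerSeries PS)
    (H K : MvPolynomial (Fin s ⊕ Fin s) ℚ) : LL w v (H + K) = LL w v H + LL w v K := by
  rw [LL, LL, LL, ← Finset.sum_add_distrib]
  refine Finset.sum_congr rfl fun j _ => ?_
  rw [map_add, map_add, add_mul]

theorem LL_C (w : Fin s → PS) (v : Fin s → PowerSeries PS) (a : ℚ) :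
    LL w v (MvPolynomial.C a) = 0 := by
  rw [LL]
  refine Finset.sum_eq_zero fun j _ => ?_
  rw [MvPolynomial.pderiv_C, map_zero, zero_mul]

theorem LL_X (w : Fin s → PS) (v : Fin s → PowerSeries PS) (k : Fin s ⊕ Fin s) :
    LL w v (MvPolynomial.X k) = Sum.elim (fun _ => 0) v k := by
  rw [LL]
  rcases k with k | k
  · refine Finset.sum_eq_zero fun j _ => ?_
    rw [MvPolynomial.pderiv_X_of_ne (by simp), map_zero, zero_mul]
  · rw [Finset.sum_eq_single k]
    · rw [MvPolynomial.pderiv_X_self, map_one, one_mul]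
      rfl
    · intro j _ hj
      rw [MvPolynomial.pderiv_X_of_ne (by
        intro h
        exact hj (Sum.inr_injective h).symm), map_zero, zero_mul]
    · intro h
      exact absurd (Finset.mem_univ k) h

theorem LL_mul (w : Fin s → PS) (v : Fin s → PowerSeries PS)
    (H K : MvPolynomial (Fin s ⊕ Fin s) ℚ) : LL w v (H * K) =
      MvPolynomial.aeval (pt2 w) H * LL w v K + MvPolynomial.aeval (pt2 w) K * LL w v H := by
  rw [LL, LL, LL, Finset.mul_sum, Finset.mul_sum, ← Finset.sum_add_distrib]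
  refine Finset.sum_congr rfl fun j _ => ?_
  rw [Derivation.leibniz, smul_eq_mul, smul_eq_mul, map_add, map_mul, map_mul]
  ring

theorem phi_C (w : Fin s → PS) (a : ℚ) :
    MvPolynomial.aeval (pt2 w) (MvPolynomial.C a) = inY (PowerSeries.C a) := by
  exact RingHom.congr_fun (RingHom.ext_rat
    ((MvPolynomial.aeval (R := ℚ) (pt2 w)).toRingHom.comp MvPolynomial.C)
    ((PowerSeries.C : PS →+* PowerSeries PS).comp PowerSeries.C)) a

theorem dY_phi (w : Fin s → PS) (H : MvPolynomial (Fin s ⊕ Fin s) ℚ) :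
    dY (MvPolynomial.aeval (pt2 w) H) = LL w (fun j => inY (D (w j))) H := by
  induction H using MvPolynomial.induction_on with
  | C a => rw [phi_C, dY_inY, D_C, LL_C, inY, map_zero]
  | add P Q hP hQ => rw [map_add, dY_add, hP, hQ, LL_add]
  | mul_X P k hP =>
    rw [map_mul, dY_mul, hP, LL_mul, LL_X, MvPolynomial.aeval_X]
    congr 2
    rcases k with k | k
    · exact dY_inX (w k)
    · exact dY_inY (w k)

theorem LL_mem (h : ZF p) (w : Fin s → PS) (v : Fin s → PowerSeries PS)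
    (hv : ∀ j, v j ∈ R2 h w) {H : MvPolynomial (Fin s ⊕ Fin s) ℚ} (hH : PI p H) :
    LL w v H ∈ R2 h w :=
  Subring.sum_mem _ fun j _ => (R2 h w).mul_mem (phi_mem h w (h.pder _ H _ hH)) (hv j)

theorem dY_mem (h : ZF p) (w : Fin s → PS) (hD : ∀ j, D (w j) ∈ OP p w) :
    ∀ a ∈ R2 h w, dY a ∈ R2 h w := by
  rintro a ⟨P, Q, hP, hQ, hu, he⟩
  have ha : a ∈ R2 h w := ⟨P, Q, hP, hQ, hu, he⟩
  have hv : ∀ j, inY (D (w j)) ∈ R2 h w := fun j => inY_mem h w (hD j)
  have h1 : MvPolynomial.aeval (pt2 w) Q * dY a =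
      LL w (fun j => inY (D (w j))) P - a * LL w (fun j => inY (D (w j))) Q := by
    have := congrArg dY he
    rw [dY_mul, dY_phi, dY_phi] at this
    rw [← this]
    ring
  have h2 : MvPolynomial.aeval (pt2 w) Q * dY a ∈ R2 h w := by
    rw [h1]
    exact (R2 h w).sub_mem (LL_mem h w _ hv hP) ((R2 h w).mul_mem ha (LL_mem h w _ hv hQ))
  obtain ⟨P', Q', hP', hQ', hu', he'⟩ := h2
  refine ⟨P', Q' * Q, hP', PI_mul h hQ' hQ, ?_, ?_⟩
  · rw [map_mul]
    exact ZU_mul h hu' hu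
  · rw [map_mul, mul_assoc]
    exact he'

theorem key (h : ZF p) (hLP : S_LP) (w : Fin s → PS) (hc : ∀ i, ZI p (c0 w i))
    (hD : ∀ j, D (w j) ∈ OP p w) (H : MvPolynomial (Fin s ⊕ Fin s) ℚ) (hH : PI p H) :
    ∃ r ∈ R2 h w, dY^[p] (MvPolynomial.aeval (pt2 w) H) =
      LL w (fun j => inY (D^[p] (w j))) H + (p : PowerSeries PS) * r := by
  have hlp := hLP (PowerSeries PS) dY (R2 h w) p h.prime dY_add dY_mul (dY_mem h w hD)
  obtain ⟨S, hS⟩ := h.zsub
  have hPI : ∀ H' : MvPolynomial (Fin s ⊕ Fin s) S, PI p (MvPolynomial.map S.subtype H') := by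
    intro H' m
    rw [MvPolynomial.coeff_map]
    have : ((MvPolynomial.coeff m H' : S) : ℚ) ∈ (S : Set ℚ) := (MvPolynomial.coeff m H').2
    rwa [hS] at this
  have hr : H ∈ Set.range (MvPolynomial.map (σ := Fin s ⊕ Fin s) S.subtype) := by
    rw [MvPolynomial.mem_range_map_iff_coeffs_subset]
    intro x hx
    obtain ⟨m, _, rfl⟩ := MvPolynomial.mem_coeffs_iff.1 hx
    have : MvPolynomial.coeff m H ∈ (S : Set ℚ) := by
      rw [hS]
      exact hH m
    exact ⟨⟨_, this⟩, rfl⟩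
  obtain ⟨H', rfl⟩ := hr
  clear hH
  induction H' using MvPolynomial.induction_on with
  | C a =>
    refine ⟨0, (R2 h w).zero_mem, ?_⟩
    rw [MvPolynomial.map_C, phi_C, dYi_inY, LL_C, mul_zero, add_zero]
    have h0 : D^[p] (PowerSeries.C (S.subtype a)) = 0 := by
      obtain ⟨q, hq⟩ : ∃ q, p = q + 1 := ⟨p - 1, by have := h.prime.pos; omega⟩
      rw [hq, Function.iterate_succ_apply, D_C]
      clear hq
      induction q with
      | zero => rfl
      | succ q ih => rw [Function.iterate_succ_apply, D_zero, ih]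
    rw [h0, inY, map_zero]
  | add P Q hP hQ =>
    obtain ⟨r, hr, e1⟩ := hP
    obtain ⟨r', hr', e2⟩ := hQ
    refine ⟨r + r', (R2 h w).add_mem hr hr', ?_⟩
    rw [map_add, map_add, dYi_add, e1, e2, LL_add]
    ring
  | mul_X P k hP =>
    obtain ⟨r, hr, e1⟩ := hP
    have hX : MvPolynomial.aeval (pt2 w) (MvPolynomial.X k : MvPolynomial (Fin s ⊕ Fin s) ℚ) ∈
        R2 h w := phi_mem h w (PI_X h k)
    obtain ⟨r', hr', e2⟩ := hlp _ (phi_mem h w (hPI P)) _ hX
    refine ⟨MvPolynomial.aeval (pt2 w) (MvPolynomial.X k : MvPolynomial (Fin s ⊕ Fin s) ℚ) * r + r',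
      (R2 h w).add_mem ((R2 h w).mul_mem hX hr) hr', ?_⟩
    have e3 : dY^[p] (MvPolynomial.aeval (pt2 w)
        (MvPolynomial.X k : MvPolynomial (Fin s ⊕ Fin s) ℚ)) =
        LL w (fun j => inY (D^[p] (w j))) (MvPolynomial.X k) := by
      rw [LL_X, MvPolynomial.aeval_X]
      rcases k with k | k
      · change dY^[p] (inX (w k)) = 0
        obtain ⟨q, hq⟩ : ∃ q, p = q + 1 := ⟨p - 1, by have := h.prime.pos; omega⟩
        rw [hq, Function.iterate_succ_apply, dY_inX, dYi_zero]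
      · exact dYi_inY p (w k)
    rw [map_mul, MvPolynomial.map_X, map_mul, e2, e1, e3, LL_mul]
    ring

/-! ### from `R2` to `O_p` -/

theorem pt1_bind (w : Fin s → PS) (H : MvPolynomial (Fin s ⊕ Fin s) ℚ) :
    MvPolynomial.aeval (pt1 w) H = MvPolynomial.aeval w (MvPolynomial.bind₁
      (Sum.elim MvPolynomial.X (fun i => MvPolynomial.C (c0 w i)) :
        Fin s ⊕ Fin s → MvPolynomial (Fin s) ℚ) H) := by
  rw [MvPolynomial.aeval_bind₁]
  congr 2
  funext i
  rcases i with i | i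
  · change w i = MvPolynomial.aeval w (MvPolynomial.X i)
    rw [MvPolynomial.aeval_X]
  · change PowerSeries.C (c0 w i) = MvPolynomial.aeval w (MvPolynomial.C (c0 w i))
    rw [MvPolynomial.aeval_C]
    rfl

theorem pt0_bind (w : Fin s → PS) (H : MvPolynomial (Fin s ⊕ Fin s) ℚ) :
    MvPolynomial.eval (c0 w) (MvPolynomial.bind₁
      (Sum.elim MvPolynomial.X (fun i => MvPolynomial.C (c0 w i)) :
        Fin s ⊕ Fin s → MvPolynomial (Fin s) ℚ) H) = MvPolynomial.eval (pt0 w) H := by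
  have h : (MvPolynomial.eval (c0 w)).comp (MvPolynomial.bind₁
      (Sum.elim MvPolynomial.X (fun i => MvPolynomial.C (c0 w i)) :
        Fin s ⊕ Fin s → MvPolynomial (Fin s) ℚ)).toRingHom = MvPolynomial.eval (pt0 w) := by
    refine MvPolynomial.ringHom_ext (fun r => ?_) fun j => ?_
    · change MvPolynomial.eval (c0 w) (MvPolynomial.bind₁ _ (MvPolynomial.C r)) = _
      rw [MvPolynomial.bind₁_C_right, MvPolynomial.eval_C, MvPolynomial.eval_C]
    · change MvPolynomial.eval (c0 w) (MvPolynomial.bind₁ _ (MvPolynomial.X j)) = _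
      rw [MvPolynomial.bind₁_X_right, MvPolynomial.eval_X]
      rcases j with j | j
      · change MvPolynomial.eval (c0 w) (MvPolynomial.X j) = c0 w j
        rw [MvPolynomial.eval_X]
      · change MvPolynomial.eval (c0 w) (MvPolynomial.C (c0 w j)) = c0 w j
        rw [MvPolynomial.eval_C]
  exact RingHom.congr_fun h H

theorem PI_bind (h : ZF p) (w : Fin s → PS) (hc : ∀ i, ZI p (c0 w i))
    {H : MvPolynomial (Fin s ⊕ Fin s) ℚ} (hH : PI p H) :
    PI p (MvPolynomial.bind₁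
      (Sum.elim MvPolynomial.X (fun i => MvPolynomial.C (c0 w i)) :
        Fin s ⊕ Fin s → MvPolynomial (Fin s) ℚ) H) := by
  refine h.bind _ _ _ _ hH fun i => ?_
  rcases i with i | i
  · exact PI_X h i
  · exact PI_C h _ (hc i)

theorem ee_mem (h : ZF p) (w : Fin s → PS) (hc : ∀ i, ZI p (c0 w i)) {E : PowerSeries PS}
    (hE : E ∈ R2 h w) : ee E ∈ OP p w := by
  obtain ⟨P, Q, hP, hQ, hu, he⟩ := hE
  refine ⟨_, _, PI_bind h w hc hP, PI_bind h w hc hQ, ?_, ?_⟩
  · rw [pt0_bind]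
    exact hu
  · rw [← pt1_bind, ← pt1_bind, ← ee_phi, ← ee_phi, ← map_mul, he]

end R2

theorem ev_phi1 {s : ℕ} (w : Fin s → PS) (H : MvPolynomial (Fin s ⊕ Fin s) ℚ) :
    ev (MvPolynomial.aeval (pt1 w) H) = MvPolynomial.eval (pt0 w) H := by
  have h : (PowerSeries.constantCoeff (R := ℚ)).comp
      (MvPolynomial.aeval (R := ℚ) (pt1 w)).toRingHom = MvPolynomial.eval (pt0 w) := by
    refine MvPolynomial.ringHom_ext (fun r => ?_) fun j => ?_
    · exact RingHom.congr_fun (RingHom.ext_rat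
        (((PowerSeries.constantCoeff (R := ℚ)).comp
          (MvPolynomial.aeval (R := ℚ) (pt1 w)).toRingHom).comp MvPolynomial.C)
        ((MvPolynomial.eval (pt0 w)).comp MvPolynomial.C)) r
    · change PowerSeries.constantCoeff (MvPolynomial.aeval (pt1 w) (MvPolynomial.X j)) = _
      rw [MvPolynomial.aeval_X, MvPolynomial.eval_X]
      rcases j with j | j
      · rfl
      · change PowerSeries.constantCoeff (PowerSeries.C (c0 w j)) = c0 w j
        rw [PowerSeries.constantCoeff_C]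
  exact RingHom.congr_fun h H

theorem ee_LL {s : ℕ} (w : Fin s → PS) (p : ℕ) (H : MvPolynomial (Fin s ⊕ Fin s) ℚ) :
    ee (LL w (fun j => inY (D^[p] (w j))) H) =
      ∑ j, PowerSeries.C (cp p w j) *
        MvPolynomial.aeval (pt1 w) (MvPolynomial.pderiv (Sum.inr j) H) := by
  rw [LL, map_sum]
  refine Finset.sum_congr rfl fun j _ => ?_
  rw [map_mul, ee_phi, ee_inY, cp, mul_comm]

theorem t_PMW (hZ : S_ZZZ) (hR : S_RNG) (hDC : S_DCL) (hLP : S_LP) : S_PMW := by
  intro s w N M hAdd p hG i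
  have h : ZF p := zf hG.prime hZ
  obtain ⟨S, hS, hSC, hSw, hSev, hSO, hSinv⟩ := hR.2 p s w hG.prime hG.c
  have mem : ∀ g, g ∈ S ↔ g ∈ OP p w := fun g => by
    rw [← hS]
    rfl
  obtain ⟨_, _, _, hdc⟩ := hDC s w N M hAdd
  obtain ⟨_, hDO⟩ := hdc p hG
  have hD : ∀ j, D (w j) ∈ OP p w := fun j => hDO _ ((mem _).1 (hSw j))
  have htay : tay (w i) ∈ R2 h w := ⟨N i, M i, hG.hN i, hG.hM i, hG.unit i, hAdd.add i⟩
  have hMi : MvPolynomial.aeval (pt2 w) (M i) ∈ R2 h w := phi_mem h w (hG.hM i)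
  obtain ⟨r1, hr1, e1⟩ := hLP (PowerSeries PS) dY (R2 h w) p h.prime dY_add dY_mul
    (dY_mem h w hD) _ hMi _ htay
  obtain ⟨r2, hr2, e2⟩ := key h hLP w hG.c hD (M i) (hG.hM i)
  obtain ⟨r3, hr3, e3⟩ := key h hLP w hG.c hD (N i) (hG.hN i)
  rw [hAdd.add i, dYi_tay, e2, e3] at e1
  have e4 := congrArg ee e1
  rw [map_add, map_add, map_add, map_mul, map_mul, map_mul, map_mul, map_add, map_mul, map_natCast,
    ee_LL, ee_LL, ee_phi, ee_tay, ee_tay] at e4
  set m : PS := MvPolynomial.aeval (pt1 w) (M i) with hm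
  have hmS : m ∈ S := by
    rw [mem, hm, ← ee_phi]
    exact ee_mem h w hG.c hMi
  have hmu : ZU p (ev m) := by
    rw [hm, ev_phi1]
    exact hG.unit i
  have hminv : m⁻¹ ∈ S := hSinv m hmS hmu
  have hmm : m * m⁻¹ = 1 := PowerSeries.mul_inv_cancel m hmu.1
  have hwi : w i ∈ S := hSw i
  have q1 : ee r1 ∈ S := (mem _).2 (ee_mem h w hG.c hr1)
  have q2 : ee r2 ∈ S := (mem _).2 (ee_mem h w hG.c hr2)
  have q3 : ee r3 ∈ S := (mem _).2 (ee_mem h w hG.c hr3)
  refine ⟨m⁻¹ * (ee r3 - w i * ee r2 - ee r1), (mem _).1 (S.mul_mem hminv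
    (S.sub_mem (S.sub_mem q3 (S.mul_mem hwi q2)) q1)), ?_⟩
  have hpc : PowerSeries.C (p : ℚ) = (p : PS) := by
    rw [map_natCast]
  rw [hpc]
  have hv : ∑ j, PowerSeries.C (cp p w j) * vv w N M i j =
      (∑ j, PowerSeries.C (cp p w j) *
          MvPolynomial.aeval (pt1 w) (MvPolynomial.pderiv (Sum.inr j) (N i)) -
        w i * ∑ j, PowerSeries.C (cp p w j) *
          MvPolynomial.aeval (pt1 w) (MvPolynomial.pderiv (Sum.inr j) (M i))) * m⁻¹ := by
    rw [Finset.mul_sum, ← Finset.sum_sub_distrib, Finset.sum_mul]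
    refine Finset.sum_congr rfl fun j _ => ?_
    rw [vv, ← hm]
    ring
  rw [hv]
  linear_combination (-(D^[p] (w i))) * hmm - m⁻¹ * e4

end Run7.h721.AD
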